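import Pool.Agent.Lib.MRDP.Quad

set_option autoImplicit false

namespace Pool.Agent.Lib.MP_7692ce_al

open Pool.Agent.Lib.MRDP
open scoped commutatorElement

section Class2

/-- Commutators are central. -/
def C2 (G : Type) [Group G] : Prop := ∀ a b c : G, ⁅a, b⁆ * c = c * ⁅a, b⁆

variable {G : Type} [Group G]

theorem comm_mul_left (hG : C2 G) (a a' b : G) : ⁅a * a', b⁆ = ⁅a, b⁆ * ⁅a', b⁆ := by
  have h1 : ⁅a * a', b⁆ = a * ⁅a', b⁆ * (b * a⁻¹ * b⁻¹) := by
    simp only [commutatorElement_def]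
    group
  rw [h1, ← hG a' b a, mul_assoc, hG a' b]
  simp only [commutatorElement_def]
  group

/-- `a ↦ ⁅a, b⁆` as a homomorphism. -/
def commL (hG : C2 G) (b : G) : G →* G where
  toFun a := ⁅a, b⁆
  map_one' := by simp [commutatorElement_def]
  map_mul' a a' := comm_mul_left hG a a' b

theorem comm_zpow_left (hG : C2 G) (a b : G) (m : ℤ) : ⁅a ^ m, b⁆ = ⁅a, b⁆ ^ m :=
  map_zpow (commL hG b) a m

theorem comm_inv_left (hG : C2 G) (a b : G) : ⁅a⁻¹, b⁆ = ⁅a, b⁆⁻¹ :=
  map_inv (commL hG b) a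

theorem comm_one_left (b : G) : ⁅(1 : G), b⁆ = 1 := by simp [commutatorElement_def]

theorem comm_zpow_right (hG : C2 G) (a b : G) (m : ℤ) : ⁅a, b ^ m⁆ = ⁅a, b⁆ ^ m := by
  rw [← commutatorElement_inv, comm_zpow_left hG, ← inv_zpow, commutatorElement_inv]

theorem comm_commute (hG : C2 G) (a b c d : G) : Commute ⁅a, b⁆ ⁅c, d⁆ := hG a b ⁅c, d⁆

/-- `g` is congruent to `α ^ p * β ^ q` modulo the centre, expressed through commutators. -/
def Rep (α β g : G) (p q : ℤ) : Prop := ∀ h : G, ⁅g, h⁆ = ⁅α, h⁆ ^ p * ⁅β, h⁆ ^ q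

theorem Rep.of_left (α β : G) : Rep α β α 1 0 := fun h => by simp

theorem Rep.of_right (α β : G) : Rep α β β 0 1 := fun h => by simp

theorem Rep.one (α β : G) : Rep α β 1 0 0 := fun h => by simp

theorem Rep.mul (hG : C2 G) {α β g g' : G} {p q p' q' : ℤ} (h1 : Rep α β g p q)
    (h2 : Rep α β g' p' q') : Rep α β (g * g') (p + p') (q + q') := fun h => by
  rw [comm_mul_left hG, h1, h2, zpow_add, zpow_add]
  have hc : Commute (⁅β, h⁆ ^ q) (⁅α, h⁆ ^ p') :=
    ((comm_commute hG β h α h).zpow_left q).zpow_right p'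
  calc ⁅α, h⁆ ^ p * ⁅β, h⁆ ^ q * (⁅α, h⁆ ^ p' * ⁅β, h⁆ ^ q')
      = ⁅α, h⁆ ^ p * (⁅β, h⁆ ^ q * ⁅α, h⁆ ^ p') * ⁅β, h⁆ ^ q' := by group
    _ = ⁅α, h⁆ ^ p * (⁅α, h⁆ ^ p' * ⁅β, h⁆ ^ q) * ⁅β, h⁆ ^ q' := by rw [hc.eq]
    _ = _ := by group

theorem Rep.inv (hG : C2 G) {α β g : G} {p q : ℤ} (h1 : Rep α β g p q) :
    Rep α β g⁻¹ (-p) (-q) := fun h => by
  rw [comm_inv_left hG, h1, mul_inv_rev, zpow_neg, zpow_neg, ← zpow_neg, ← zpow_neg]
  exact (((comm_commute hG β h α h).zpow_left (-q)).zpow_right (-p)).eq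

theorem Rep.comm (hG : C2 G) {α β g g' : G} {p q p' q' : ℤ} (h1 : Rep α β g p q)
    (h2 : Rep α β g' p' q') : ⁅g, g'⁆ = ⁅α, β⁆ ^ (p * q' - q * p') := by
  have e1 : ⁅α, g'⁆ = ⁅α, β⁆ ^ q' := by
    rw [← commutatorElement_inv, h2 α, commutatorElement_self, one_zpow, one_mul, ← inv_zpow,
      commutatorElement_inv]
  have e2 : ⁅β, g'⁆ = ⁅α, β⁆ ^ (-p') := by
    rw [← commutatorElement_inv, h2 β, commutatorElement_self, one_zpow, mul_one, zpow_neg]
  rw [h1 g', e1, e2, ← zpow_mul, ← zpow_mul, ← zpow_add]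
  congr 1
  ring

theorem isNilpotent_of_C2 (hG : C2 G) : Group.IsNilpotent G := by
  apply Subgroup.isNilpotent_of_ker_le_center (Abelianization.of (G := G))
  rw [Abelianization.ker_of, commutator_def, Subgroup.commutator_le]
  intro a _ b _
  rw [Subgroup.mem_center_iff]
  intro c
  exact (hG a b c).symm

end Class2

/-- The integral Heisenberg group. -/
@[ext]
structure Heis : Type where
  /-- first coordinate -/
  x : ℤ
  /-- second coordinate -/
  y : ℤ
  /-- central coordinate -/
  z : ℤ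

namespace Heis

instance : Mul Heis := ⟨fun a b => ⟨a.x + b.x, a.y + b.y, a.z + b.z + a.x * b.y⟩⟩
instance : One Heis := ⟨⟨0, 0, 0⟩⟩
instance : Inv Heis := ⟨fun a => ⟨-a.x, -a.y, -a.z + a.x * a.y⟩⟩

@[simp] theorem mul_x (a b : Heis) : (a * b).x = a.x + b.x := rfl
@[simp] theorem mul_y (a b : Heis) : (a * b).y = a.y + b.y := rfl
@[simp] theorem mul_z (a b : Heis) : (a * b).z = a.z + b.z + a.x * b.y := rfl
@[simp] theorem one_x : (1 : Heis).x = 0 := rfl
@[simp] theorem one_y : (1 : Heis).y = 0 := rfl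
@[simp] theorem one_z : (1 : Heis).z = 0 := rfl
@[simp] theorem inv_x (a : Heis) : (a⁻¹).x = -a.x := rfl
@[simp] theorem inv_y (a : Heis) : (a⁻¹).y = -a.y := rfl
@[simp] theorem inv_z (a : Heis) : (a⁻¹).z = -a.z + a.x * a.y := rfl

instance : Group Heis := Group.ofLeftAxioms
  (fun a b c => by ext <;> simp <;> ring)
  (fun a => by ext <;> simp)
  (fun a => by ext <;> simp)

theorem c2 : C2 Heis := fun a b c => by
  rw [commutatorElement_def]
  ext <;> simp <;> ring

/-- generators -/
def α : Heis := ⟨1, 0, 0⟩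
/-- generators -/
def β : Heis := ⟨0, 1, 0⟩

theorem comm_αβ : ⁅α, β⁆ = ⟨0, 0, 1⟩ := by
  rw [commutatorElement_def]
  ext <;> simp [α, β]

theorem central_pow (m : ℤ) : (⟨0, 0, 1⟩ : Heis) ^ m = ⟨0, 0, m⟩ := by
  have h : ∀ n : ℕ, (⟨0, 0, 1⟩ : Heis) ^ n = ⟨0, 0, (n : ℤ)⟩ := by
    intro n
    induction n with
    | zero => rw [pow_zero]; rfl
    | succ n ih =>
      rw [pow_succ, ih]
      ext <;> simp
  obtain ⟨n, rfl | rfl⟩ := m.eq_nat_or_neg
  · rw [zpow_natCast, h]
  · rw [zpow_neg, zpow_natCast, h]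
    ext <;> simp

theorem comm_pow_eq_one {m : ℤ} (h : ⁅α, β⁆ ^ m = 1) : m = 0 := by
  rw [comm_αβ, central_pow] at h
  exact congrArg Heis.z h

end Heis

section Presentation

variable {γ : Type} (E : List (Eqn (Option (Option γ))))

/-- Generators: `none` is `e`, `some (inl v)` is `X_v`, `some (inr v)` is `Y_v`. -/
abbrev Gen (γ : Type) : Type := Option (Option (Option γ) ⊕ Option (Option γ))

/-- The free generator `X_v`. -/
def fX (v : Option (Option γ)) : FreeGroup (Gen γ) := FreeGroup.of (some (Sum.inl v))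
/-- The free generator `Y_v`. -/
def fY (v : Option (Option γ)) : FreeGroup (Gen γ) := FreeGroup.of (some (Sum.inr v))
/-- The free generator `e`. -/
def fe : FreeGroup (Gen γ) := FreeGroup.of none

/-- Relator attached to an atomic equation. -/
def eqnRel : Eqn (Option (Option γ)) → FreeGroup (Gen γ)
  | .add i j k => ⁅fX i, fY none⁆ * ⁅fX j, fY none⁆ * (⁅fX k, fY none⁆)⁻¹
  | .mul i j k => ⁅fX i, fY j⁆ * (⁅fX k, fY none⁆)⁻¹

/-- The relators. -/
inductive IsRel : FreeGroup (Gen γ) → Prop
  | cls (a b c : FreeGroup (Gen γ)) : IsRel ⁅⁅a, b⁆, c⁆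
  | yy (v : Option (Option γ)) : IsRel ⁅fY v, (fY none : FreeGroup (Gen γ))⁆
  | xy (v : Option (Option γ)) : IsRel (⁅fX v, (fY none : FreeGroup (Gen γ))⁆ *
      (⁅(fX none : FreeGroup (Gen γ)), fY v⁆)⁻¹)
  | eqn (e : Eqn (Option (Option γ))) (he : e ∈ E) : IsRel (eqnRel e)
  | ee : IsRel (⁅(fe : FreeGroup (Gen γ)), (fY none : FreeGroup (Gen γ))⁆ *
      (⁅(fX none : FreeGroup (Gen γ)), (fY none : FreeGroup (Gen γ))⁆ *
        ⁅(fX (some none) : FreeGroup (Gen γ)), (fY (some none) : FreeGroup (Gen γ))⁆)⁻¹)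

/-- The group. -/
abbrev GG : Type := PresentedGroup {w | IsRel E w}

/-- Projection from the free group. -/
def π : FreeGroup (Gen γ) →* GG E := PresentedGroup.mk _

theorem π_surj : Function.Surjective (π E) := PresentedGroup.mk_surjective _

theorem π_rel {w : FreeGroup (Gen γ)} (h : IsRel E w) : π E w = 1 :=
  PresentedGroup.one_of_mem h

theorem GG_c2 : C2 (GG E) := by
  intro a b c
  obtain ⟨a, rfl⟩ := π_surj E a
  obtain ⟨b, rfl⟩ := π_surj E b
  obtain ⟨c, rfl⟩ := π_surj E c
  have h := π_rel E (IsRel.cls a b c)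
  rw [map_commutatorElement, map_commutatorElement, commutatorElement_eq_one_iff_mul_comm] at h
  exact h

/-- images of the generators under a solution -/
def img {K : Type} [Group K] (α β : K) (x : Option (Option γ) → ℤ) : Gen γ → K
  | none => α ^ (1 + x (some none) * x (some none))
  | some (Sum.inl v) => α ^ x v
  | some (Sum.inr v) => β ^ x v

theorem img_rel {K : Type} [Group K] (hK : C2 K) (α β : K) (x : Option (Option γ) → ℤ)
    (h0 : x none = 1) (hE : ∀ e ∈ E, e.holds x) :
    ∀ w ∈ {w | IsRel E w}, FreeGroup.lift (img α β x) w = 1 := by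
  have hX : ∀ v, FreeGroup.lift (img α β x) (fX v) = α ^ x v := fun v => by
    rw [fX, FreeGroup.lift_apply_of]; rfl
  have hY : ∀ v, FreeGroup.lift (img α β x) (fY v) = β ^ x v := fun v => by
    rw [fY, FreeGroup.lift_apply_of]; rfl
  have he : FreeGroup.lift (img α β x) fe = α ^ (1 + x (some none) * x (some none)) := by
    rw [fe, FreeGroup.lift_apply_of]; rfl
  have hc : ∀ p q : ℤ, ⁅α ^ p, β ^ q⁆ = ⁅α, β⁆ ^ (p * q) := fun p q => by
    rw [comm_zpow_left hK, comm_zpow_right hK, ← zpow_mul, mul_comm]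
  rintro w (⟨a, b, c⟩ | ⟨v⟩ | ⟨v⟩ | ⟨e, hmem⟩ | _)
  · rw [map_commutatorElement, map_commutatorElement, commutatorElement_eq_one_iff_mul_comm]
    exact hK _ _ _
  · rw [map_commutatorElement, hY, hY, commutatorElement_eq_one_iff_commute]
    exact ((Commute.refl β).zpow_left _).zpow_right _
  · rw [map_mul, map_inv, map_commutatorElement, map_commutatorElement, hX, hY, hX, hY, hc, hc,
      h0, mul_one, one_mul, mul_inv_cancel]
  · cases e with
    | add i j k =>
      have h := hE _ hmem
      change x i + x j = x k at h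
      simp only [eqnRel, map_mul, map_inv, map_commutatorElement, hX, hY, hc, h0, mul_one]
      rw [← zpow_add, h, mul_inv_cancel]
    | mul i j k =>
      have h := hE _ hmem
      change x i * x j = x k at h
      simp only [eqnRel, map_mul, map_inv, map_commutatorElement, hX, hY, hc, h0, mul_one]
      rw [h, mul_inv_cancel]
  · rw [map_mul, map_inv, map_mul, map_commutatorElement, map_commutatorElement,
      map_commutatorElement, hX, hY, hX, hY, he, hc, hc, hc, h0, mul_one, mul_one, ← zpow_add,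
      mul_inv_cancel]

/-- The homomorphism attached to a solution. -/
def homOf {K : Type} [Group K] (hK : C2 K) (α β : K) (x : Option (Option γ) → ℤ)
    (h0 : x none = 1) (hE : ∀ e ∈ E, e.holds x) : GG E →* K :=
  PresentedGroup.toGroup (img_rel E hK α β x h0 hE)

section homOf

variable {K : Type} [Group K] (hK : C2 K) (α β : K) (x : Option (Option γ) → ℤ)
    (h0 : x none = 1) (hE : ∀ e ∈ E, e.holds x)

theorem homOf_X (v : Option (Option γ)) : homOf E hK α β x h0 hE (π E (fX v)) = α ^ x v :=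
  PresentedGroup.toGroup.of (img_rel E hK α β x h0 hE)

theorem homOf_Y (v : Option (Option γ)) : homOf E hK α β x h0 hE (π E (fY v)) = β ^ x v :=
  PresentedGroup.toGroup.of (img_rel E hK α β x h0 hE)

theorem homOf_e : homOf E hK α β x h0 hE (π E fe) = α ^ (1 + x (some none) * x (some none)) :=
  PresentedGroup.toGroup.of (img_rel E hK α β x h0 hE)

end homOf

/-- The first generator of the subgroup `H_a`. -/
def ehat (a : ℕ) : GG E :=
  π E fe * π E (fX (some none)) ^ (-(2 * (a : ℤ))) * π E (fX none) ^ ((a : ℤ) * a)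

/-- The second generator of the subgroup `H_a`. -/
def yhat : GG E := π E (fY none)

/-- The subgroup `H_a`. -/
def HH (a : ℕ) : Subgroup (GG E) := Subgroup.closure {ehat E a, yhat E}

theorem homOf_ehat {K : Type} [Group K] (hK : C2 K) (α β : K) (x : Option (Option γ) → ℤ)
    (h0 : x none = 1) (hE : ∀ e ∈ E, e.holds x) (a : ℕ) :
    homOf E hK α β x h0 hE (ehat E a) = α ^ (1 + (x (some none) - a) * (x (some none) - a)) := by
  unfold ehat
  rw [map_mul, map_mul, map_zpow, map_zpow, homOf_X, homOf_X, homOf_e, h0, ← zpow_mul, ← zpow_mul,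
    ← zpow_add, ← zpow_add]
  congr 1
  ring

theorem homOf_yhat {K : Type} [Group K] (hK : C2 K) (α β : K) (x : Option (Option γ) → ℤ)
    (h0 : x none = 1) (hE : ∀ e ∈ E, e.holds x) :
    homOf E hK α β x h0 hE (yhat E) = β := by
  unfold yhat
  rw [homOf_Y, h0, zpow_one]

/-- A solution gives a retraction. -/
theorem retract_of_solution (a : ℕ) (x : Option (Option γ) → ℤ) (h0 : x none = 1)
    (h1 : x (some none) = a) (hE : ∀ e ∈ E, e.holds x) :
    ∃ r : GG E →* GG E, r.range = HH E a ∧ ∀ h ∈ HH E a, r h = h := by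
  let r := homOf E (GG_c2 E) (ehat E a) (yhat E) x h0 hE
  have he : r (ehat E a) = ehat E a := by
    rw [homOf_ehat, h1, sub_self, mul_zero, add_zero, zpow_one]
  have hy : r (yhat E) = yhat E := homOf_yhat E _ _ _ _ _ _
  have hfix : ∀ h ∈ HH E a, r h = h := by
    intro h hh
    induction hh using Subgroup.closure_induction with
    | mem g hg =>
      rcases hg with rfl | rfl
      · exact he
      · exact hy
    | one => exact map_one r
    | mul g g' _ _ h1 h2 => rw [map_mul, h1, h2]
    | inv g _ h1 => rw [map_inv, h1]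
  have hemem : ehat E a ∈ HH E a := Subgroup.subset_closure (by simp)
  have hymem : yhat E ∈ HH E a := Subgroup.subset_closure (by simp)
  refine ⟨r, le_antisymm ?_ ?_, hfix⟩
  · rintro _ ⟨g, rfl⟩
    obtain ⟨w, rfl⟩ := π_surj E g
    induction w using FreeGroup.induction_on with
    | C1 => rw [map_one, map_one]; exact Subgroup.one_mem _
    | of g =>
      rcases g with _ | (v | v)
      · have : r (π E (FreeGroup.of none)) = _ := homOf_e E _ _ _ _ _ _
        rw [this]
        exact Subgroup.zpow_mem _ hemem _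
      · have : r (π E (FreeGroup.of (some (Sum.inl v)))) = _ := homOf_X E _ _ _ _ _ _ v
        rw [this]
        exact Subgroup.zpow_mem _ hemem _
      · have : r (π E (FreeGroup.of (some (Sum.inr v)))) = _ := homOf_Y E _ _ _ _ _ _ v
        rw [this]
        exact Subgroup.zpow_mem _ hymem _
    | inv_of g h => rw [map_inv, map_inv]; exact Subgroup.inv_mem _ h
    | mul w w' h h' => rw [map_mul, map_mul]; exact Subgroup.mul_mem _ h h'
  · intro h hh
    exact ⟨h, hfix h hh⟩

/-- A retraction gives a solution, provided the system has a solution for some parameter. -/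
theorem solution_of_retract (a : ℕ) (x0 : Option (Option γ) → ℤ) (h0 : x0 none = 1)
    (hE : ∀ e ∈ E, e.holds x0)
    (r : GG E →* GG E) (hrange : r.range = HH E a) (hfix : ∀ h ∈ HH E a, r h = h) :
    ∃ x : Option (Option γ) → ℤ, x none = 1 ∧ x (some none) = a ∧ ∀ e ∈ E, e.holds x := by
  have hG := GG_c2 E
  set α := ehat E a with hα
  set β := yhat E with hβ
  -- the commutator has infinite order
  have hinf : ∀ m n : ℤ, ⁅α, β⁆ ^ m = ⁅α, β⁆ ^ n → m = n := by
    intro m n hmn
    have h1 : ⁅α, β⁆ ^ (m - n) = 1 := by rw [zpow_sub, hmn, mul_inv_cancel]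
    have h2 := congrArg (homOf E Heis.c2 Heis.α Heis.β x0 h0 hE) h1
    rw [map_zpow, map_commutatorElement, homOf_ehat, homOf_yhat, map_one,
      comm_zpow_left Heis.c2, ← zpow_mul] at h2
    have h3 := Heis.comm_pow_eq_one h2
    rcases mul_eq_zero.mp h3 with h | h
    · nlinarith [mul_self_nonneg (x0 (some none) - a)]
    · omega
  -- representations of elements of `H_a`
  have hrep : ∀ h ∈ HH E a, ∃ p q : ℤ, Rep α β h p q := by
    intro h hh
    induction hh using Subgroup.closure_induction with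
    | mem g hg =>
      rcases hg with rfl | rfl
      · exact ⟨1, 0, Rep.of_left _ _⟩
      · exact ⟨0, 1, Rep.of_right _ _⟩
    | one => exact ⟨0, 0, Rep.one _ _⟩
    | mul g g' _ _ h1 h2 =>
      obtain ⟨p, q, h1⟩ := h1
      obtain ⟨p', q', h2⟩ := h2
      exact ⟨_, _, h1.mul hG h2⟩
    | inv g _ h1 =>
      obtain ⟨p, q, h1⟩ := h1
      exact ⟨_, _, h1.inv hG⟩
  have hrep' : ∀ g : GG E, ∃ p q : ℤ, Rep α β (r g) p q := fun g =>
    hrep _ (by rw [← hrange]; exact ⟨g, rfl⟩)
  choose P Q hPQ using hrep'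
  have hcomm : ∀ g g' : GG E, r ⁅g, g'⁆ = ⁅α, β⁆ ^ (P g * Q g' - Q g * P g') := fun g g' => by
    rw [map_commutatorElement]
    exact (hPQ g).comm hG (hPQ g')
  have hαmem : α ∈ HH E a := Subgroup.subset_closure (by simp [hα])
  have hβmem : β ∈ HH E a := Subgroup.subset_closure (by simp [hβ])
  -- images of commutators with `Y_0`
  have hcY : ∀ g : GG E, r ⁅g, β⁆ = ⁅α, β⁆ ^ (P g) := fun g => by
    rw [map_commutatorElement, hfix β hβmem]
    have := (hPQ g).comm hG (Rep.of_right α β)
    rw [this]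
    congr 1
    ring
  let X : Option (Option γ) → GG E := fun v => π E (fX v)
  let Y : Option (Option γ) → GG E := fun v => π E (fY v)
  have hβY : β = Y none := rfl
  -- relation yy
  have hPY : ∀ v, P (Y v) = 0 := by
    intro v
    have h1 := π_rel E (IsRel.yy v)
    rw [map_commutatorElement] at h1
    have h2 := hcY (Y v)
    rw [hβY] at h2
    change r ⁅π E (fY v), π E (fY none)⁆ = _ at h2
    rw [h1, map_one] at h2
    have h3 : ⁅α, Y none⁆ ^ (0 : ℤ) = ⁅α, Y none⁆ ^ P (Y v) := by rw [zpow_zero, ← h2]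
    exact (hinf _ _ h3).symm
  -- relation xy
  have hXY : ∀ v, P (X v) = P (X none) * Q (Y v) := by
    intro v
    have h1 := π_rel E (IsRel.xy v)
    rw [map_mul, map_inv, map_commutatorElement, map_commutatorElement, mul_inv_eq_one] at h1
    have h2 := hcY (X v)
    change r ⁅π E (fX v), π E (fY none)⁆ = _ at h2
    have h3 := hcomm (X none) (Y v)
    change r ⁅π E (fX none), π E (fY v)⁆ = _ at h3
    rw [h1, h3, hPY, mul_zero, sub_zero] at h2
    exact (hinf _ _ h2).symm
  have hee : P (π E fe) = P (X none) + P (X (some none)) * Q (Y (some none)) := by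
    have h1 := π_rel E (IsRel.ee (E := E))
    rw [map_mul, map_inv, map_mul, map_commutatorElement, map_commutatorElement,
      map_commutatorElement, mul_inv_eq_one] at h1
    have h2 := hcY (π E fe)
    change r ⁅π E fe, π E (fY none)⁆ = _ at h2
    have h3 := hcY (X none)
    change r ⁅π E (fX none), π E (fY none)⁆ = _ at h3
    have h4 := hcomm (X (some none)) (Y (some none))
    change r ⁅π E (fX (some none)), π E (fY (some none))⁆ = _ at h4
    rw [h1, map_mul, h3, h4, hPY, mul_zero, sub_zero, ← zpow_add] at h2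
    exact (hinf _ _ h2).symm
  -- the fixed element
  have hone : P (π E fe) - 2 * a * P (X (some none)) + a * a * P (X none) = 1 := by
    have h1 : r ⁅α, β⁆ = ⁅α, β⁆ := by rw [map_commutatorElement, hfix α hαmem, hfix β hβmem]
    have h2 : ⁅α, β⁆ = ⁅π E fe, β⁆ * ⁅X (some none), β⁆ ^ (-(2 * (a : ℤ))) *
        ⁅X none, β⁆ ^ ((a : ℤ) * a) := by
      rw [hα]
      unfold ehat
      rw [comm_mul_left hG, comm_mul_left hG, comm_zpow_left hG, comm_zpow_left hG]
    have h3 := h1
    rw [h2, map_mul, map_mul, map_zpow, map_zpow, hcY, hcY, hcY, ← h2, ← zpow_mul, ← zpow_mul,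
      ← zpow_add, ← zpow_add] at h3
    have h4 : ⁅α, β⁆ ^ (P (π E fe) + P (X (some none)) * -(2 * (a : ℤ)) + P (X none) * ((a : ℤ) * a))
        = ⁅α, β⁆ ^ (1 : ℤ) := by rw [h3, zpow_one]
    have h5 := hinf _ _ h4
    linarith
  have hprod : P (X none) * (1 + (Q (Y (some none)) - a) * (Q (Y (some none)) - a)) = 1 := by
    rw [hee, hXY (some none)] at hone
    linear_combination hone
  have hpos : 0 ≤ (Q (Y (some none)) - a) * (Q (Y (some none)) - a) := mul_self_nonneg _
  have hP0 : P (X none) = 1 := by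
    have h1 : 0 < P (X none) := by
      by_contra hle
      push Not at hle
      nlinarith
    nlinarith
  have hQa : Q (Y (some none)) = a := by
    rw [hP0, one_mul] at hprod
    have : (Q (Y (some none)) - a) * (Q (Y (some none)) - a) = 0 := by linarith
    have := mul_self_eq_zero.mp this
    linarith
  have hPX : ∀ v, P (X v) = Q (Y v) := fun v => by rw [hXY, hP0, one_mul]
  refine ⟨fun v => Q (Y v), ?_, hQa, ?_⟩
  · show Q (Y none) = 1
    rw [← hPX, hP0]
  · intro e he
    cases e with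
    | add i j k =>
      show Q (Y i) + Q (Y j) = Q (Y k)
      have h1 := π_rel E (IsRel.eqn _ he)
      simp only [eqnRel, map_mul, map_inv, map_commutatorElement] at h1
      rw [mul_inv_eq_one] at h1
      have h2 := congrArg r h1
      have hi := hcY (X i)
      have hj := hcY (X j)
      have hk := hcY (X k)
      change r ⁅π E (fX i), π E (fY none)⁆ = _ at hi
      change r ⁅π E (fX j), π E (fY none)⁆ = _ at hj
      change r ⁅π E (fX k), π E (fY none)⁆ = _ at hk
      rw [map_mul, hi, hj, hk, ← zpow_add] at h2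
      have := hinf _ _ h2
      rw [hPX, hPX, hPX] at this
      exact this
    | mul i j k =>
      show Q (Y i) * Q (Y j) = Q (Y k)
      have h1 := π_rel E (IsRel.eqn _ he)
      simp only [eqnRel, map_mul, map_inv, map_commutatorElement] at h1
      rw [mul_inv_eq_one] at h1
      have h2 := congrArg r h1
      have hi := hcomm (X i) (Y j)
      have hk := hcY (X k)
      change r ⁅π E (fX i), π E (fY j)⁆ = _ at hi
      change r ⁅π E (fX k), π E (fY none)⁆ = _ at hk
      rw [hi, hk, hPY, mul_zero, sub_zero] at h2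
      have := hinf _ _ h2
      rw [hPX, hPX] at this
      exact this

end Presentation

end Pool.Agent.Lib.MP_7692ce_al
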